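import Pool.Agent.K1H20.RS.Stm

/-! Project RS, pieces U and SUR: polynomials over the `p`-adic integers. -/

set_option autoImplicit false
set_option linter.dupNamespace false

namespace Pool.Agent.K1H1.RS

open Pool.Agent.K1H20.RS

section basic

variable {R : Type*} [CommRing R]

theorem degree_pl_lt {k : ℕ} (a : Fin k → R) : (pl a).degree < k := by
  rw [Polynomial.degree_lt_iff_coeff_zero]
  intro j hj
  unfold pl
  rw [Polynomial.finsetSum_coeff]
  refine Finset.sum_eq_zero fun i _ => ?_
  rw [Polynomial.coeff_C_mul, Polynomial.coeff_X_pow, if_neg (by have := i.2; omega), mul_zero]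

theorem natDegree_pl_le {k : ℕ} (a : Fin (k + 1) → R) : (pl a).natDegree ≤ k := by
  rw [Polynomial.natDegree_le_iff_coeff_eq_zero]
  have h := degree_pl_lt a
  rw [Polynomial.degree_lt_iff_coeff_zero] at h
  exact fun N hN => h N hN

theorem eq_pl {k : ℕ} (P : Polynomial R) (h : P.degree < k) :
    P = pl (fun i : Fin k => P.coeff i) := by
  ext j
  unfold pl
  rw [Polynomial.finsetSum_coeff]
  simp only [Polynomial.coeff_C_mul, Polynomial.coeff_X_pow, mul_ite, mul_one, mul_zero]
  by_cases hj : j < k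
  · rw [Finset.sum_eq_single (⟨j, hj⟩ : Fin k)]
    · simp
    · intro b _ hb
      rw [if_neg]
      rintro rfl
      exact hb rfl
    · intro h'
      exact absurd (Finset.mem_univ _) h'
  · rw [Finset.sum_eq_zero]
    · exact Polynomial.coeff_eq_zero_of_degree_lt (h.trans_le (by exact_mod_cast not_lt.mp hj))
    · intro b _
      rw [if_neg]
      rintro rfl
      exact hj b.2

theorem coeff_pl {k : ℕ} (a : Fin k → R) (j : Fin k) : (pl a).coeff j = a j := by
  unfold pl
  rw [Polynomial.finsetSum_coeff]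
  simp only [Polynomial.coeff_C_mul, Polynomial.coeff_X_pow, mul_ite, mul_one, mul_zero]
  rw [Finset.sum_eq_single j]
  · simp
  · intro b _ hb
    rw [if_neg]
    intro h
    exact hb (Fin.ext h).symm
  · intro h'
    exact absurd (Finset.mem_univ _) h'

theorem step1 {k n : ℕ} {U G : Polynomial R} (hU : U.natDegree ≤ k) (hG : G.natDegree ≤ n)
    (hr : IsUnit (Polynomial.resultant U G k n)) (P : Polynomial R) (hP : P.degree < (k + n : ℕ)) :
    ∃ f a : Polynomial R, f.degree < n ∧ a.degree < k ∧ P = U * f + G * a := by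
  obtain ⟨r, hr'⟩ := hr
  let Q : Polynomial.degreeLT R (k + n) := ⟨P, Polynomial.mem_degreeLT.mpr hP⟩
  let Y := Polynomial.adjSylvester (m := k) (n := n) U G Q
  have h1 : ((Polynomial.sylvesterMap U G hU hG Y)).1 = Polynomial.resultant U G k n • P :=
    congrArg Subtype.val (LinearMap.congr_fun (Polynomial.sylveserMap_comp_adjSylvester U G hU hG) Q)
  have h2 : U * (Y.2 : Polynomial R) + G * (Y.1 : Polynomial R) = Polynomial.resultant U G k n • P := h1
  refine ⟨(↑r⁻¹ : R) • (Y.2 : Polynomial R), (↑r⁻¹ : R) • (Y.1 : Polynomial R), ?_, ?_, ?_⟩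
  · exact (Polynomial.degree_smul_le _ _).trans_lt (Polynomial.mem_degreeLT.mp Y.2.2)
  · exact (Polynomial.degree_smul_le _ _).trans_lt (Polynomial.mem_degreeLT.mp Y.1.2)
  · rw [mul_smul_comm, mul_smul_comm, ← smul_add, h2, ← hr', smul_smul, Units.inv_mul, one_smul]

theorem step2 {k n : ℕ} {U G : Polynomial R} (hk : 1 ≤ k) (hU : U.natDegree ≤ k)
    (hG : G.natDegree ≤ n) (hr : IsUnit (Polynomial.resultant U G k n)) (j : ℕ) :
    ∀ P : Polynomial R, P.degree < (k + n + j : ℕ) →
    ∃ f a : Polynomial R, f.degree < (n + j : ℕ) ∧ a.degree < (k + j : ℕ) ∧ P = U * f + G * a := by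
  induction j with
  | zero => exact fun P hP => step1 hU hG hr P hP
  | succ j ih =>
    intro P hP
    have h1 : P.divX.degree < (k + n + j : ℕ) := by
      rw [Polynomial.degree_lt_iff_coeff_zero] at hP ⊢
      intro i hi
      rw [Polynomial.coeff_divX]
      exact hP _ (by omega)
    obtain ⟨f, a, hf, ha, h2⟩ := ih _ h1
    obtain ⟨f', a', hf', ha', h3⟩ := step1 hU hG hr (Polynomial.C (P.coeff 0))
      (Polynomial.degree_C_le.trans_lt (by exact_mod_cast (by omega : 0 < k + n)))
    refine ⟨f * Polynomial.X + f', a * Polynomial.X + a', ?_, ?_, ?_⟩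
    · rw [Polynomial.degree_lt_iff_coeff_zero] at hf hf' ⊢
      intro i hi
      obtain ⟨i, rfl⟩ : ∃ i', i = i' + 1 := ⟨i - 1, by omega⟩
      rw [Polynomial.coeff_add, Polynomial.coeff_mul_X, hf _ (by omega), hf' _ (by omega), add_zero]
    · rw [Polynomial.degree_lt_iff_coeff_zero] at ha ha' ⊢
      intro i hi
      obtain ⟨i, rfl⟩ : ∃ i', i = i' + 1 := ⟨i - 1, by omega⟩
      rw [Polynomial.coeff_add, Polynomial.coeff_mul_X, ha _ (by omega), ha' _ (by omega), add_zero]
    · conv_lhs => rw [← Polynomial.divX_mul_X_add P, h2, h3]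
      ring

end basic

/-- **Piece SUR.** -/
theorem t_SUR : S_SUR := by
  intro p _ n k m g u hr hk hn F
  obtain ⟨f, a, hf, ha, h⟩ := step2 hk (natDegree_pl_le u) (natDegree_pl_le g) hr (m + 1 - n) (pl F)
    ((degree_pl_lt F).trans_le (by exact_mod_cast (by omega : m + k + 1 ≤ k + n + (m + 1 - n))))
  refine ⟨fun i => f.coeff i, fun i => a.coeff i, ?_⟩
  rw [← eq_pl (k := m + 1) f (hf.trans_le (by exact_mod_cast (by omega : n + (m + 1 - n) ≤ m + 1))),
    ← eq_pl (k := m + k + 1 - n) a
      (ha.trans_le (by exact_mod_cast (by omega : k + (m + 1 - n) ≤ m + k + 1 - n)))]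
  exact h

/-- **Piece U.** -/
theorem t_U : S_U := by
  intro p hp n k g ⟨j, hj⟩ hnk
  set φ : ℤ_[p] →+* ZMod p := PadicInt.toZMod with hφ
  have hunit : ∀ x : ℤ_[p], φ x ≠ 0 → IsUnit x := by
    intro x hx
    rw [← IsLocalRing.notMem_maximalIdeal, ← PadicInt.ker_toZMod, RingHom.mem_ker]
    exact hx
  set G : Polynomial (ZMod p) := (pl g).map φ with hG
  have hG0 : G ≠ 0 := by
    intro h0
    have h1 : G.coeff j = φ (g j) := by
      rw [hG, Polynomial.coeff_map, coeff_pl]
    rw [h0, Polynomial.coeff_zero] at h1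
    exact (hj.map φ).ne_zero h1.symm
  have hGn : G.natDegree ≤ n := Polynomial.natDegree_map_le.trans (natDegree_pl_le g)
  set e := G.natDegree with he
  set V : Polynomial (ZMod p) := G * Polynomial.X ^ (k - e) + 1 with hV
  have hd : (G * Polynomial.X ^ (k - e)).natDegree = k := by
    rw [Polynomial.natDegree_mul_X_pow _ hG0]
    omega
  have hVd : V.natDegree = k := by
    rw [hV, Polynomial.natDegree_add_eq_left_of_natDegree_lt, hd]
    rw [Polynomial.natDegree_one, hd]
    omega
  have hV0 : V ≠ 0 := by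
    intro h0
    rw [h0, Polynomial.natDegree_zero] at hVd
    omega
  have hcop : IsCoprime V G := ⟨1, -Polynomial.X ^ (k - e), by rw [hV]; ring⟩
  obtain ⟨lift, hlift⟩ := (ZMod.ringHom_surjective φ).hasRightInverse
  refine ⟨fun i => lift (V.coeff i), hunit _ ?_⟩
  have hmap : (pl fun i : Fin (k + 1) => lift (V.coeff i)).map φ = V := by
    rw [pl_map]
    simp only [hlift _]
    refine (eq_pl V ?_).symm
    rw [Polynomial.degree_eq_natDegree hV0, hVd]
    exact_mod_cast Nat.lt_succ_self k
  rw [← Polynomial.resultant_map_map, hmap, ← hG]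
  have h2 : Polynomial.resultant V G k n = V.coeff k ^ (n - e) * Polynomial.resultant V G k e := by
    conv_lhs => rw [show n = e + (n - e) by omega]
    exact Polynomial.resultant_add_right_deg _ _ _ _ _ le_rfl
  rw [h2]
  refine mul_ne_zero (pow_ne_zero _ ?_) ?_
  · rw [← hVd, Polynomial.coeff_natDegree]
    exact Polynomial.leadingCoeff_ne_zero.mpr hV0
  · rw [← hVd, he]
    exact Polynomial.resultant_ne_zero V G hcop

end Pool.Agent.K1H1.RS
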